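import Mathlib
import Pool.Agent.Lib.MP_a0e7a4_nt.Main

/-!
Runners with arbitrary starting points whose speeds have no ratio of small height.
-/

set_option autoImplicit false

open Finset MeasureTheory

namespace Pool.Agent.FS.ShiftedLonely

open Pool.Agent.Lib.MP_a0e7a4_nt (E mem_E meas_E vol_E sh mem_sh vol_sh vol_univ circ_ind ind
  sum_ind_integrable sum_ind_integral sum_ind pair_bound dirichlet)

/-- at every time some runner is within `δ` of its centre -/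
def Cov (V : Finset ℕ) (c : ℕ → ℝ) (δ : ℝ) : Prop :=
  ∀ t : ℝ, ∃ v ∈ V, ∃ m : ℤ, |(v : ℝ) * t - c v - m| < δ

/-- doubly covered part of the bad set of `v` -/
def Dbl (V : Finset ℕ) (c : ℕ → ℝ) (δ : ℝ) (v : ℕ) : Set UnitAddCircle :=
  E v (c v) δ ∩ ⋃ w ∈ V.erase v, E w (c w) δ

/-- the part of the arc on the side `σ` of the bad set of `v` that `w` can cover alone -/
def Nxt (c : ℕ → ℝ) (δ r σ : ℝ) (v w : ℕ) : Set UnitAddCircle :=
  if w < v then E v (c v + σ * (δ + r)) r ∩ E w (c w - σ * (δ - r)) r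
  else E v (c v + σ * (δ + r)) r ∩ E w (c w) δ

/-- inverse of the height of the ratio of two speeds -/
noncomputable def gam (v w : ℕ) : ℝ := (Nat.gcd v w : ℝ) / (max v w : ℕ)

lemma meas_Dbl (V : Finset ℕ) (c : ℕ → ℝ) (δ : ℝ) (v : ℕ) : MeasurableSet (Dbl V c δ v) :=
  (meas_E _ _ _).inter (Finset.measurableSet_biUnion _ (fun _ _ => meas_E _ _ _))

lemma cov_mem {V : Finset ℕ} {c : ℕ → ℝ} {δ : ℝ} (hc : Cov V c δ) (x : UnitAddCircle) :
    ∃ v ∈ V, x ∈ E v (c v) δ := by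
  induction x using circ_ind with
  | h t =>
  obtain ⟨v, hv, m, hm⟩ := hc t
  exact ⟨v, hv, (mem_E _ _ _ _).2 ⟨m, hm.le⟩⟩

lemma dbl_le {V : Finset ℕ} {c : ℕ → ℝ} {δ : ℝ} (hV : ∀ v ∈ V, 0 < v) (hδ : 0 < δ)
    (h3 : 2 * δ ≤ 1) (hc : Cov V c δ) :
    ∑ v ∈ V, (volume : Measure UnitAddCircle).real (Dbl V c δ v) ≤ 2 * (2 * δ * V.card) - 2 := by
  classical
  rw [← sum_ind_integral V _ (meas_Dbl V c δ)]
  have i1 := sum_ind_integrable V (fun v => E v (c v) δ) (fun v => meas_E _ _ _)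
  have h2 : ∫ x, (2 * ∑ v ∈ V, ind (E v (c v) δ) x - 2) = 2 * (2 * δ * V.card) - 2 := by
    rw [integral_sub (i1.const_mul 2) (integrable_const _), integral_const_mul,
      sum_ind_integral V _ (fun v => meas_E _ _ _),
      sum_congr rfl (fun v hv => vol_E v (hV v hv) (c v) δ hδ.le (by linarith)), sum_const,
      nsmul_eq_mul, integral_const, vol_univ]
    simp only [smul_eq_mul]; ring
  rw [← h2]
  apply integral_mono (sum_ind_integrable _ _ (meas_Dbl V c δ))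
    ((i1.const_mul 2).sub (integrable_const _))
  intro x
  simp only [Pi.sub_apply]
  rw [sum_ind V (fun v => Dbl V c δ v), sum_ind V (fun v => E v (c v) δ)]
  obtain ⟨v, hv, hx⟩ := cov_mem hc x
  have c1 : 1 ≤ (V.filter (fun v => x ∈ E v (c v) δ)).card :=
    card_pos.2 ⟨v, mem_filter.2 ⟨hv, hx⟩⟩
  have c2 : (V.filter (fun v => x ∈ Dbl V c δ v)).card ≤
      (V.filter (fun v => x ∈ E v (c v) δ)).card :=
    card_le_card (fun u hu => mem_filter.2 ⟨(mem_filter.1 hu).1, (mem_filter.1 hu).2.1⟩)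
  have c3 : (V.filter (fun v => x ∈ Dbl V c δ v)).card = 0 ∨
      2 ≤ (V.filter (fun v => x ∈ E v (c v) δ)).card := by
    rcases (V.filter (fun v => x ∈ Dbl V c δ v)).eq_empty_or_nonempty with h | ⟨u, hu⟩
    · left; rw [h]; rfl
    · right
      rw [mem_filter] at hu
      obtain ⟨hu1, hu2, hu3⟩ := hu
      simp only [Set.mem_iUnion] at hu3
      obtain ⟨w, hw, hxw⟩ := hu3
      rw [mem_erase] at hw
      exact one_lt_card.2 ⟨u, mem_filter.2 ⟨hu1, hu2⟩, w, mem_filter.2 ⟨hw.2, hxw⟩, hw.1.symm⟩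
  have c4 : (V.filter (fun v => x ∈ Dbl V c δ v)).card + 2 ≤
      2 * (V.filter (fun v => x ∈ E v (c v) δ)).card := by omega
  have c5 : ((V.filter (fun v => x ∈ Dbl V c δ v)).card : ℝ) + 2 ≤
      2 * (V.filter (fun v => x ∈ E v (c v) δ)).card := by exact_mod_cast c4
  linarith

lemma nxt_ge {V : Finset ℕ} {c : ℕ → ℝ} {δ r σ : ℝ} (hV : ∀ v ∈ V, 0 < v) (hr : 0 < r)
    (hrδ : 2 * r < δ) (h3 : 2 * δ + 2 * r ≤ 1) (hσ : σ = 1 ∨ σ = -1) (hc : Cov V c δ) (v : ℕ)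
    (hv : v ∈ V) :
    2 * r ≤ (volume : Measure UnitAddCircle).real (Dbl V c δ v ∩ E v (c v + σ * (δ - r)) r) +
      ∑ w ∈ V.erase v, (volume : Measure UnitAddCircle).real (Nxt c δ r σ v w) := by
  have hv0 : (0 : ℝ) < v := by exact_mod_cast hV v hv
  have h1 : E v (c v + σ * (δ + r)) r ⊆
      sh (-(σ * (2 * r / v))) (Dbl V c δ v ∩ E v (c v + σ * (δ - r)) r) ∪
        ⋃ w ∈ V.erase v, Nxt c δ r σ v w := by
    intro x
    induction x using circ_ind with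
    | h t =>
    intro hx
    obtain ⟨m, hm⟩ := (mem_E _ _ _ _).1 hx
    obtain ⟨w, hw, m', hm'⟩ := hc t
    rw [abs_le] at hm
    rw [abs_lt] at hm'
    have hwv : w ≠ v := by
      rintro rfl
      rcases hσ with rfl | rfl
      · have c1 : (m : ℝ) < m' := by linarith
        have c2 : m + 1 ≤ m' := by exact_mod_cast c1
        have c3 : (m : ℝ) + 1 ≤ m' := by exact_mod_cast c2
        linarith
      · have c1 : (m' : ℝ) < m := by linarith
        have c2 : m' + 1 ≤ m := by exact_mod_cast c1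
        have c3 : (m' : ℝ) + 1 ≤ m := by exact_mod_cast c2
        linarith
    have hw' : w ∈ V.erase v := mem_erase.2 ⟨hwv, hw⟩
    by_cases hlt : w < v
    · by_cases hneg : σ * ((w : ℝ) * t - c w - m') ≤ 2 * r - δ
      · right
        refine Set.mem_biUnion hw' ?_
        unfold Nxt; rw [if_pos hlt]
        refine ⟨hx, (mem_E _ _ _ _).2 ⟨m', ?_⟩⟩
        rw [abs_le]
        rcases hσ with rfl | rfl <;> constructor <;> linarith
      · left
        rw [mem_sh]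
        push Not at hneg
        obtain ⟨y, hy⟩ : ∃ y : ℝ, y = 2 * r / v := ⟨_, rfl⟩
        have c3 : (v : ℝ) * y = 2 * r := by rw [hy]; field_simp
        have c0 : 0 ≤ y := by rw [hy]; positivity
        have c1 : (w : ℝ) * y ≤ 2 * r := by
          have : (w : ℝ) ≤ v := by exact_mod_cast hlt.le
          exact (mul_le_mul_of_nonneg_right this c0).trans c3.le
        have c2 : 0 ≤ (w : ℝ) * y := by positivity
        rw [← hy]
        refine ⟨⟨(mem_E _ _ _ _).2 ⟨m, ?_⟩, Set.mem_biUnion hw' ((mem_E _ _ _ _).2 ⟨m', ?_⟩)⟩,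
          (mem_E _ _ _ _).2 ⟨m, ?_⟩⟩
        · rw [abs_le]
          rcases hσ with rfl | rfl <;> constructor <;> linarith
        · rw [abs_le]
          rcases hσ with rfl | rfl <;> constructor <;> linarith
        · rw [abs_le]
          rcases hσ with rfl | rfl <;> constructor <;> linarith
    · right
      refine Set.mem_biUnion hw' ?_
      unfold Nxt; rw [if_neg hlt]
      refine ⟨hx, (mem_E _ _ _ _).2 ⟨m', ?_⟩⟩
      rw [abs_le]; constructor <;> linarith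
  have h2 := (measureReal_mono (μ := (volume : Measure UnitAddCircle)) h1 (measure_ne_top _ _)).trans
    (measureReal_union_le _ _)
  rw [vol_E v (hV v hv) _ _ (by linarith) (by linarith), vol_sh] at h2
  have h4 := measureReal_biUnion_finset_le (μ := (volume : Measure UnitAddCircle)) (V.erase v)
    (fun w => Nxt c δ r σ v w)
  linarith

lemma two_sides (D : Set UnitAddCircle) (hD : MeasurableSet D) {δ r : ℝ} (hr : 0 < r)
    (hrδ : 2 * r < δ) (h3 : 2 * δ + 2 * r ≤ 1) (v : ℕ) (z : ℝ) :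
    (volume : Measure UnitAddCircle).real (D ∩ E v (z + 1 * (δ - r)) r) +
      (volume : Measure UnitAddCircle).real (D ∩ E v (z + -1 * (δ - r)) r) ≤
      (volume : Measure UnitAddCircle).real D := by
  have hd : Disjoint (D ∩ E v (z + 1 * (δ - r)) r) (D ∩ E v (z + -1 * (δ - r)) r) := by
    rw [Set.disjoint_left]
    intro x
    induction x using circ_ind with
    | h t =>
    rintro ⟨_, h1⟩ ⟨_, h2⟩
    obtain ⟨m, hm⟩ := (mem_E _ _ _ _).1 h1
    obtain ⟨m', hm'⟩ := (mem_E _ _ _ _).1 h2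
    rw [abs_le] at hm hm'
    have c1 : (m : ℝ) < m' := by linarith
    have c2 : m + 1 ≤ m' := by exact_mod_cast c1
    have c3 : (m : ℝ) + 1 ≤ m' := by exact_mod_cast c2
    linarith
  rw [← measureReal_union hd (hD.inter (meas_E _ _ _))]
  exact measureReal_mono (Set.union_subset Set.inter_subset_left Set.inter_subset_left)
    (measure_ne_top _ _)

lemma exists_red (v w : ℕ) (hv0 : 0 < v) :
    ∃ g a b : ℕ, 0 < g ∧ Nat.Coprime a b ∧ v = g * a ∧ w = g * b := by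
  have hg : 0 < Nat.gcd v w := Nat.gcd_pos_of_pos_left _ hv0
  exact ⟨Nat.gcd v w, v / Nat.gcd v w, w / Nat.gcd v w, hg, Nat.coprime_div_gcd_div_gcd hg,
    (Nat.mul_div_cancel' (Nat.gcd_dvd_left _ _)).symm,
    (Nat.mul_div_cancel' (Nat.gcd_dvd_right _ _)).symm⟩

lemma gam_comm (v w : ℕ) : gam v w = gam w v := by
  unfold gam
  rw [Nat.gcd_comm, max_comm]

lemma gam_red {g a b : ℕ} (hg : 0 < g) (hab : Nat.Coprime a b) (h : a ≤ b) (hb : 0 < b) :
    gam (g * a) (g * b) = 1 / b := by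
  unfold gam
  have hg' : (0 : ℝ) < g := by exact_mod_cast hg
  have hb' : (0 : ℝ) < b := by exact_mod_cast hb
  rw [Nat.gcd_mul_left, hab, mul_one, max_eq_right (Nat.mul_le_mul_left _ h)]
  push_cast
  field_simp

lemma gam_le {v w H : ℕ} (hv0 : 0 < v) (hw0 : 0 < w) (hH : 0 < H)
    (hh : ∀ a b : ℕ, 0 < a → a < H → 0 < b → b < H → a * v ≠ b * w) : gam v w ≤ 1 / H := by
  obtain ⟨g, a, b, hg, hab, rfl, rfl⟩ := exists_red v w hv0
  have ha0 : 0 < a := Nat.pos_of_mul_pos_left hv0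
  have hb0 : 0 < b := Nat.pos_of_mul_pos_left hw0
  have hH' : (0 : ℝ) < H := by exact_mod_cast hH
  have hp : ¬ (a < H ∧ b < H) := fun h => hh b a hb0 h.2 ha0 h.1 (by ring)
  rcases le_total a b with h | h
  · rw [gam_red hg hab h hb0]
    exact one_div_le_one_div_of_le hH' (by exact_mod_cast (by omega : H ≤ b))
  · rw [gam_comm, gam_red hg hab.symm h ha0]
    exact one_div_le_one_div_of_le hH' (by exact_mod_cast (by omega : H ≤ a))

lemma nxt_le (c : ℕ → ℝ) {δ r : ℝ} (σ : ℝ) (hr : 0 < r) (hrδ : 2 * r < δ)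
    (h3 : 2 * δ + 2 * r ≤ 1) (v w : ℕ) (hv0 : 0 < v) (hw0 : 0 < w) :
    (volume : Measure UnitAddCircle).real (Nxt c δ r σ v w) ≤
      (if w < v then 2 * r else 2 * δ) * (2 * r + gam v w) := by
  obtain ⟨g, a, b, hg, hab, rfl, rfl⟩ := exists_red v w hv0
  have ha0 : 0 < a := Nat.pos_of_mul_pos_left hv0
  have hb0 : 0 < b := Nat.pos_of_mul_pos_left hw0
  unfold Nxt
  by_cases hlt : g * b < g * a
  · rw [if_pos hlt, if_pos hlt, Set.inter_comm, gam_comm,
      gam_red hg hab.symm (Nat.lt_of_mul_lt_mul_left hlt).le ha0]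
    exact pair_bound g b a hg ha0 hab.symm _ _ _ _ hr.le hr.le (by linarith)
  · rw [if_neg hlt, if_neg hlt, gam_red hg hab (Nat.le_of_mul_le_mul_left (not_lt.1 hlt) hg) hb0]
    exact pair_bound g a b hg hb0 hab _ _ _ _ hr.le (by linarith) (by linarith)

lemma sym_sum (V : Finset ℕ) (A B : ℝ) (f : ℕ → ℕ → ℝ) (hf : ∀ v w, f v w = f w v) :
    2 * ∑ v ∈ V, ∑ w ∈ V.erase v, (if w < v then A else B) * f v w =
      (A + B) * ∑ v ∈ V, ∑ w ∈ V.erase v, f v w := by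
  have h0 : ∀ F : ℕ → ℕ → ℝ, ∑ v ∈ V, ∑ w ∈ V.erase v, F v w =
      ∑ v ∈ V, ∑ w ∈ V, if w = v then 0 else F v w := by
    intro F
    apply sum_congr rfl; intro v hv
    rw [← add_sum_erase V _ hv, if_pos rfl, zero_add]
    apply sum_congr rfl; intro w hw
    rw [if_neg (mem_erase.1 hw).1]
  rw [h0, h0, two_mul]
  nth_rewrite 2 [sum_comm]
  rw [← sum_add_distrib, mul_sum]
  apply sum_congr rfl; intro v _
  rw [← sum_add_distrib, mul_sum]
  apply sum_congr rfl; intro w _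
  rcases lt_trichotomy v w with h | h | h
  · rw [if_neg h.ne', if_neg h.ne, if_neg h.ne', if_neg (not_lt.2 h.le), if_pos h, hf w v]; ring
  · rw [if_pos h.symm, if_pos h, if_pos h.symm]; ring
  · rw [if_neg h.ne, if_neg h.ne', if_neg h.ne, if_pos h, if_neg (not_lt.2 h.le), hf w v]; ring

theorem no_cov (n : ℕ) (hn : 2 ≤ n) (V : Finset ℕ) (hVn : V.card = n) (hV : ∀ v ∈ V, 0 < v)
    (κ x : ℝ) (hS : ∑ v ∈ V, ∑ w ∈ V.erase v, gam v w ≤ κ * n) (hx : 1 / 2 < x) (hx1 : x < 1)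
    (hg : 4 * x - 2 + (1 + x) * κ < (1 - x) ^ 2) (c : ℕ → ℝ) : ¬ Cov V c (x / n) := by
  intro hc
  have hn2 : (2 : ℝ) ≤ n := by exact_mod_cast hn
  have hn0 : (0 : ℝ) < n := by linarith
  obtain ⟨u, hu⟩ : ∃ u : ℝ, u = 1 / n := ⟨_, rfl⟩
  have hu0 : 0 < u := by rw [hu]; positivity
  have hun : u * n = 1 := by rw [hu]; field_simp
  have hu2 : 2 * u ≤ 1 := by nlinarith
  have eδ : x / n = x * u := by rw [hu]; ring
  rw [eδ] at hc
  obtain ⟨δ, hδ⟩ : ∃ δ : ℝ, δ = x * u := ⟨_, rfl⟩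
  obtain ⟨r, hr⟩ : ∃ r : ℝ, r = (1 - x) * u / 2 := ⟨_, rfl⟩
  rw [← hδ] at hc
  have r0 : 0 < r := by rw [hr]; have := sub_pos.2 hx1; positivity
  have r1 : 2 * r < δ := by rw [hr, hδ]; nlinarith
  have r2 : 2 * δ + 2 * r ≤ 1 := by rw [hr, hδ]; nlinarith
  have δn : δ * n = x := by rw [hδ, mul_assoc, hun, mul_one]
  have rn : 2 * r * n = 1 - x := by
    rw [hr]
    linear_combination (1 - x) * hun
  have h1 : ∑ v ∈ V, 4 * r ≤ ∑ v ∈ V, ((volume : Measure UnitAddCircle).real (Dbl V c δ v) +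
      2 * ∑ w ∈ V.erase v, (if w < v then 2 * r else 2 * δ) * (2 * r + gam v w)) := by
    apply sum_le_sum; intro v hv
    have k1 := nxt_ge hV r0 r1 r2 (Or.inl rfl) hc v hv
    have k2 := nxt_ge hV r0 r1 r2 (Or.inr rfl) hc v hv
    have k3 := two_sides _ (meas_Dbl V c δ v) r0 r1 r2 v (c v)
    have k4 : ∀ σ : ℝ, ∑ w ∈ V.erase v, (volume : Measure UnitAddCircle).real (Nxt c δ r σ v w) ≤
        ∑ w ∈ V.erase v, (if w < v then 2 * r else 2 * δ) * (2 * r + gam v w) := fun σ =>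
      sum_le_sum fun w hw => nxt_le c σ r0 r1 r2 v w (hV v hv) (hV w (mem_erase.1 hw).2)
    have k5 := k4 1
    have k6 := k4 (-1)
    linarith
  rw [sum_add_distrib, ← mul_sum, ← mul_sum, sum_const, nsmul_eq_mul, hVn,
    sym_sum V _ _ (fun v w => 2 * r + gam v w) (fun v w => by rw [gam_comm])] at h1
  have h4 : ∑ v ∈ V, ∑ w ∈ V.erase v, (2 * r + gam v w) ≤ (1 - x + κ) * n := by
    simp only [sum_add_distrib]
    have k1 : ∑ v ∈ V, ∑ w ∈ V.erase v, 2 * r ≤ ∑ v ∈ V, ∑ w ∈ V, 2 * r :=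
      sum_le_sum fun v _ =>
        sum_le_sum_of_subset_of_nonneg (erase_subset _ _) (fun _ _ _ => by positivity)
    rw [sum_const (s := V), sum_const (s := V), nsmul_eq_mul, nsmul_eq_mul, hVn] at k1
    have k2 : (n : ℝ) * (n * (2 * r)) = (1 - x) * n := by rw [← rn]; ring
    linarith
  have h5 := dbl_le hV (by linarith) (by linarith) hc
  rw [hVn] at h5
  have h6 : (2 * r + 2 * δ) * ∑ v ∈ V, ∑ w ∈ V.erase v, (2 * r + gam v w) ≤
      (2 * r + 2 * δ) * ((1 - x + κ) * n) := mul_le_mul_of_nonneg_left h4 (by linarith)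
  have h7 : (2 * r + 2 * δ) * ((1 - x + κ) * n) = (1 + x) * (1 - x + κ) := by
    linear_combination (1 - x + κ) * rn + 2 * (1 - x + κ) * δn
  nlinarith

lemma exists_pos_le {ι : Type} [Finite ι] (f : ι → ℝ) (h : ∀ i, 0 < f i) :
    ∃ η : ℝ, 0 < η ∧ ∀ i, η ≤ f i := by
  rcases isEmpty_or_nonempty ι with h0 | h0
  · exact ⟨1, one_pos, fun i => h0.elim i⟩
  · obtain ⟨i, hi⟩ := Finite.exists_min f
    exact ⟨f i, h i, hi⟩

theorem shifted_pos (n : ℕ) (hn : 2 ≤ n) (v s : Fin n → ℝ) (hv : ∀ i, 0 < v i)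
    (H : Fin n → Fin n → ℕ) (hh : ∀ i j, i ≠ j → 2 ≤ H i j ∧
      ∀ a b : ℕ, 0 < a → a < H i j → 0 < b → b < H i j → (a : ℝ) * v i ≠ b * v j)
    (κ c : ℝ) (hS : ∑ i, ∑ j ∈ univ.erase i, (1 : ℝ) / H i j ≤ κ * n) (hc : 1 / 2 ≤ c)
    (hc1 : c ≤ 1) (hg : 4 * c - 2 + (1 + c) * κ < (1 - c) ^ 2) :
    ∃ t : ℝ, ∀ (i : Fin n) (m : ℤ), c / (n : ℝ) ≤ |v i * t + s i - m| := by
  classical
  by_contra hcon
  push Not at hcon
  have hn0 : (0 : ℝ) < n := by exact_mod_cast (by omega : 0 < n)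
  have hκ : 0 ≤ κ := by
    have h0 : (0 : ℝ) ≤ ∑ i, ∑ j ∈ univ.erase i, (1 : ℝ) / H i j :=
      sum_nonneg fun i _ => sum_nonneg fun j _ => by positivity
    exact nonneg_of_mul_nonneg_left (h0.trans hS) hn0
  obtain ⟨ε, hε, hε1, hε2⟩ : ∃ ε : ℝ, 0 < ε ∧ c + ε < 1 ∧
      4 * (c + ε) - 2 + (1 + (c + ε)) * κ < (1 - (c + ε)) ^ 2 := by
    obtain ⟨G, hG⟩ : ∃ G : ℝ, G = (1 - c) ^ 2 - (4 * c - 2 + (1 + c) * κ) := ⟨_, rfl⟩
    have G0 : 0 < G := by rw [hG]; linarith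
    obtain ⟨ε, hε⟩ : ∃ ε : ℝ, ε = G / (7 + κ) := ⟨_, rfl⟩
    have e0 : 0 < ε := by rw [hε]; positivity
    have e1 : ε * (7 + κ) = G := by rw [hε]; field_simp
    have k1 : 0 ≤ (1 + c) * κ := by positivity
    have k2 : 0 ≤ ε * κ := by positivity
    have k3 : (1 - c) ^ 2 ≤ 1 / 4 := by nlinarith
    refine ⟨ε, e0, by linarith, ?_⟩
    nlinarith [mul_nonneg e0.le (by linarith : (0 : ℝ) ≤ c), sq_nonneg ε]
  obtain ⟨M, hM⟩ := Finite.exists_le (fun p : Fin n × Fin n => H p.1 p.2)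
  obtain ⟨η₁, p1, q1⟩ := exists_pos_le v hv
  obtain ⟨η₂, p2, q2⟩ := exists_pos_le
    (ι := {x : Fin n × Fin n × Fin M × Fin M //
      x.1 ≠ x.2.1 ∧ 0 < (x.2.2.1 : ℕ) ∧ (x.2.2.1 : ℕ) < H x.1 x.2.1 ∧ 0 < (x.2.2.2 : ℕ) ∧
        (x.2.2.2 : ℕ) < H x.1 x.2.1})
    (fun x => |((x.1.2.2.1 : ℕ) : ℝ) * v x.1.1 - ((x.1.2.2.2 : ℕ) : ℝ) * v x.1.2.1|)
    (fun x => abs_pos.2 (sub_ne_zero.2 ((hh _ _ x.2.1).2 _ _ x.2.2.1 x.2.2.2.1 x.2.2.2.2.1
      x.2.2.2.2.2)))
  obtain ⟨η, hη, hη1, hη2, hη3⟩ : ∃ η : ℝ, 0 < η ∧ η ≤ ε / n ∧ η ≤ η₁ ∧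
      η ≤ η₂ / (2 * M + 1) :=
    ⟨min (ε / n) (min η₁ (η₂ / (2 * M + 1))),
      lt_min (by positivity) (lt_min p1 (by positivity)), min_le_left _ _,
      (min_le_right _ _).trans (min_le_left _ _), (min_le_right _ _).trans (min_le_right _ _)⟩
  have hη4 : η * (2 * M + 1) ≤ η₂ := (le_div_iff₀ (by positivity)).1 hη3
  obtain ⟨k, hk, hk2⟩ := dirichlet n v η hη
  have hk1 : (1 : ℝ) ≤ k := by exact_mod_cast hk
  have hp : ∀ i, ∃ q : ℕ, 0 < q ∧ |(k : ℝ) * v i - q| < η := by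
    intro i
    have c1 := hk2 i
    have c2 : (0 : ℝ) < round ((k : ℝ) * v i) := by
      have := (abs_lt.1 c1).2
      have := q1 i
      have := hv i
      nlinarith
    have c3 : 0 < round ((k : ℝ) * v i) := by exact_mod_cast c2
    obtain ⟨q, hq⟩ := Int.eq_ofNat_of_zero_le c3.le
    rw [hq] at c1 c3
    exact ⟨q, by exact_mod_cast c3, by exact_mod_cast c1⟩
  choose q hq0 hq using hp
  have hne : ∀ i j, i ≠ j → ∀ a b : ℕ, 0 < a → a < H i j → 0 < b → b < H i j →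
      a * q i ≠ b * q j := by
    intro i j hij a b a1 a2 b1 b2 he
    have hM' : H i j ≤ M := hM (i, j)
    have c1 : η₂ ≤ |(a : ℝ) * v i - b * v j| :=
      q2 ⟨(i, j, ⟨a, by omega⟩, ⟨b, by omega⟩), hij, a1, a2, b1, b2⟩
    have c2 : (a : ℝ) * q i = b * q j := by exact_mod_cast he
    have a1' : (0 : ℝ) < a := by exact_mod_cast a1
    have b1' : (0 : ℝ) < b := by exact_mod_cast b1
    have a2' : (a : ℝ) ≤ M := by exact_mod_cast (by omega : a ≤ M)
    have b2' : (b : ℝ) ≤ M := by exact_mod_cast (by omega : b ≤ M)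
    have e : (k : ℝ) * ((a : ℝ) * v i - b * v j) =
        a * ((k : ℝ) * v i - q i) - b * ((k : ℝ) * v j - q j) := by
      linear_combination c2
    have c3 : |(k : ℝ) * ((a : ℝ) * v i - b * v j)| ≤
        a * |(k : ℝ) * v i - q i| + b * |(k : ℝ) * v j - q j| := by
      rw [e]
      refine (abs_sub _ _).trans (le_of_eq ?_)
      rw [abs_mul, abs_mul, Nat.abs_cast, Nat.abs_cast]
    rw [abs_mul, Nat.abs_cast] at c3
    have c4 : a * |(k : ℝ) * v i - q i| < a * η := mul_lt_mul_of_pos_left (hq i) a1'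
    have c5 : b * |(k : ℝ) * v j - q j| < b * η := mul_lt_mul_of_pos_left (hq j) b1'
    have c6 : |(a : ℝ) * v i - b * v j| ≤ k * |(a : ℝ) * v i - b * v j| :=
      le_mul_of_one_le_left (abs_nonneg _) hk1
    have c7 : a * η ≤ M * η := mul_le_mul_of_nonneg_right a2' hη.le
    have c8 : b * η ≤ M * η := mul_le_mul_of_nonneg_right b2' hη.le
    linarith
  have hinj : Function.Injective q := by
    intro i j hij
    by_contra h
    have := (hh i j h).1
    exact hne i j h 1 1 one_pos (by omega) one_pos (by omega) (by rw [hij])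
  refine no_cov n hn (univ.image q) ?_ ?_ κ (c + ε) ?_ (by linarith) hε1 hε2
    (Function.extend q (fun i => -s i) fun _ => 0) ?_
  · rw [card_image_of_injective _ hinj, card_univ, Fintype.card_fin]
  · intro w hw
    obtain ⟨i, _, rfl⟩ := mem_image.1 hw
    exact hq0 i
  · refine le_trans ?_ hS
    rw [sum_image fun i _ j _ h => hinj h]
    refine sum_le_sum fun i _ => ?_
    rw [← image_erase hinj, sum_image fun i _ j _ h => hinj h]
    refine sum_le_sum fun j hj => ?_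
    have hij : i ≠ j := (mem_erase.1 hj).1.symm
    have := (hh i j hij).1
    exact gam_le (hq0 i) (hq0 j) (by omega) (hne i j hij)
  · intro t
    obtain ⟨i, m, hi⟩ := hcon (k * Int.fract t)
    refine ⟨q i, mem_image_of_mem _ (mem_univ i), m + q i * ⌊t⌋, ?_⟩
    rw [hinj.extend_apply]
    have e : (q i : ℝ) * t - -s i - ((m + q i * ⌊t⌋ : ℤ) : ℝ) =
        (v i * (k * Int.fract t) + s i - m) - ((k : ℝ) * v i - q i) * Int.fract t := by
      push_cast
      have e2 : (q i : ℝ) * t = q i * (Int.fract t + ⌊t⌋) := by rw [Int.fract_add_floor]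
      rw [e2]; ring
    rw [e]
    have d1 : |((k : ℝ) * v i - q i) * Int.fract t| ≤ ε / n := by
      rw [abs_mul, abs_of_nonneg (Int.fract_nonneg t)]
      calc |(k : ℝ) * v i - q i| * Int.fract t ≤ ε / n * 1 :=
            mul_le_mul ((hq i).le.trans hη1) (Int.fract_lt_one t).le (Int.fract_nonneg t)
              (by positivity)
        _ = _ := mul_one _
    have d2 : c / n + ε / n = (c + ε) / n := by ring
    have d3 := abs_sub (v i * (k * Int.fract t) + s i - m) (((k : ℝ) * v i - q i) * Int.fract t)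
    linarith

theorem shifted (n : ℕ) (hn : 2 ≤ n) (v s : Fin n → ℝ) (hv : ∀ i, v i ≠ 0)
    (H : Fin n → Fin n → ℕ) (hh : ∀ i j, i ≠ j → 2 ≤ H i j ∧
      ∀ a b : ℕ, 0 < a → a < H i j → 0 < b → b < H i j → (a : ℝ) * |v i| ≠ b * |v j|)
    (κ c : ℝ) (hS : ∑ i, ∑ j ∈ univ.erase i, (1 : ℝ) / H i j ≤ κ * n) (hc : 1 / 2 ≤ c)
    (hc1 : c ≤ 1) (hg : 4 * c - 2 + (1 + c) * κ < (1 - c) ^ 2) :
    ∃ t : ℝ, ∀ (i : Fin n) (m : ℤ), c / (n : ℝ) ≤ |v i * t + s i - m| := by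
  obtain ⟨t, ht⟩ := shifted_pos n hn (fun i => |v i|) (fun i => if 0 ≤ v i then s i else -s i)
    (fun i => abs_pos.2 (hv i)) H hh κ c hS hc hc1 hg
  refine ⟨t, fun i m => ?_⟩
  by_cases h : 0 ≤ v i
  · have h1 := ht i m
    rwa [if_pos h, abs_of_nonneg h] at h1
  · have h1 := ht i (-m)
    rw [if_neg h, abs_of_neg (not_le.1 h)] at h1
    rw [← abs_neg]
    refine h1.trans (le_of_eq ?_)
    congr 1
    push_cast
    ring

end Pool.Agent.FS.ShiftedLonely
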